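import Pool.Agent.helper37.CZ.SpecD

set_option autoImplicit false

open scoped Matrix Topology ComplexConjugate
open Filter

namespace Pool.Agent.CZ

theorem VEX_fsum0 (z : ℂ) (G : ℝ → ℂ) (h : ∀ k : ℤ, G (Complex.arg z / (2 * Real.pi) + k) = 0) :
    fsum z G = 0 := by
  unfold fsum
  rw [tsum_congr h, tsum_zero]

theorem VEX_bdd {X : Type} [TopologicalSpace X] [CompactSpace X] {f : X → ℝ} (hf : Continuous f) :
    ∃ B : ℝ, 0 ≤ B ∧ ∀ x, |f x| ≤ B := by
  obtain ⟨B, hB⟩ := (isCompact_univ.image (continuous_abs.comp hf)).bddAbove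
  refine ⟨max B 0, le_max_right _ _, fun x => ?_⟩
  exact (hB (Set.mem_image_of_mem _ (Set.mem_univ x))).trans (le_max_left _ _)

theorem VEX_low {X : Type} [TopologicalSpace X] [CompactSpace X] {f : X → ℝ} (hf : Continuous f)
    (h0 : ∀ x, 0 < f x) : ∃ δ : ℝ, 0 < δ ∧ ∀ x, δ ≤ f x := by
  rcases isEmpty_or_nonempty X with hX | hX
  · exact ⟨1, one_pos, fun x => (hX.false x).elim⟩
  · obtain ⟨x₀, _, hx₀⟩ := isCompact_univ.exists_isMinOn Set.univ_nonempty hf.continuousOn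
    exact ⟨f x₀, h0 x₀, fun x => hx₀ (Set.mem_univ x)⟩

section terms

variable {X : Type} [TopologicalSpace X] [CompactSpace X] {α : X ≃ₜ X} {Q Q' : Type} [Fintype Q]
  [Fintype Q'] {w : Q → C(X, ℂ)} {h : Q → C(X, ℝ)} {w' : Q' → C(X, ℂ)} {h' : Q' → C(X, ℝ)}
  {U : Q → Q' → X → ℝ → ℝ → ℂ} {K K' : ℕ} {φ : Fin K → Q → X → ℝ → ℂ} {ψ : Fin K' → Q' → X → ℝ → ℂ}

theorem VEX_cont (h1 : CSM_stmt) (h2 : PE1_stmt) (hw : LSys α w h) (hw' : LSys α w' h')
    (hφ : Fam α w h φ) (hψ : Fam α w' h' ψ) (hU : Kern α w h w' h' U) (i : Fin K) (j : Fin K')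
    (n : ℤ) (q : Q) (q' : Q') :
    Continuous (fun x => fsum (w q x) (fun τ => fsum (w' q' x) (fun τ' =>
      φ i q x τ * U q q' x τ τ' * ψ j q' ((α ^ (-n)) x) (τ' + csum α (h' q') (-n) x)))) := by
  have hS : Continuous (csum α (h' q') (-n)) := (h1 X α (h' q')).2.2.2.1 (-n)
  obtain ⟨B, hB0, hB⟩ := VEX_bdd hS
  obtain ⟨Rφ, hRφ⟩ := hφ.supp
  obtain ⟨Rψ, hRψ⟩ := hψ.supp
  have hα : Continuous ((α ^ (-n) : X ≃ₜ X) : X → X) := (α ^ (-n) : X ≃ₜ X).continuous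
  -- the inner sum
  have hin : Continuous (fun y : X × ℝ => fsum (w' q' y.1) (fun τ' =>
      φ i q y.1 y.2 * U q q' y.1 y.2 τ' * ψ j q' ((α ^ (-n)) y.1)
        (τ' + csum α (h' q') (-n) y.1))) := by
    apply h2 (X × ℝ) (fun y => w' q' y.1) ((w' q').continuous.comp continuous_fst)
      (fun y => (hw' q').1.1 y.1) (fun y τ' =>
      φ i q y.1 y.2 * U q q' y.1 y.2 τ' * ψ j q' ((α ^ (-n)) y.1)
        (τ' + csum α (h' q') (-n) y.1))
    · have c1 : Continuous (fun p : (X × ℝ) × ℝ => φ i q p.1.1 p.1.2) :=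
        (hφ.cont i q).comp (continuous_fst.comp continuous_fst |>.prodMk
          (continuous_snd.comp continuous_fst))
      have c2 : Continuous (fun p : (X × ℝ) × ℝ => U q q' p.1.1 p.1.2 p.2) :=
        (hU.cont q q').comp ((continuous_fst.comp continuous_fst).prodMk
          ((continuous_snd.comp continuous_fst).prodMk continuous_snd))
      have c3 : Continuous (fun p : (X × ℝ) × ℝ => ψ j q' ((α ^ (-n)) p.1.1)
          (p.2 + csum α (h' q') (-n) p.1.1)) :=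
        (hψ.cont j q').comp ((hα.comp (continuous_fst.comp continuous_fst)).prodMk
          (continuous_snd.add (hS.comp (continuous_fst.comp continuous_fst))))
      exact (c1.mul c2).mul c3
    · refine ⟨Rψ + B, fun y τ' hτ => ?_⟩
      have h3 : Rψ < |τ' + csum α (h' q') (-n) y.1| := by
        have h4 := hB y.1
        have h5 : |τ'| ≤ |τ' + csum α (h' q') (-n) y.1| + |csum α (h' q') (-n) y.1| := by
          have h6 := abs_sub (τ' + csum α (h' q') (-n) y.1) (csum α (h' q') (-n) y.1)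
          rw [add_sub_cancel_right] at h6
          exact h6
        linarith
      rw [hRψ _ _ _ _ h3, mul_zero]
  apply h2 X (fun x => w q x) (w q).continuous (fun x => (hw q).1.1 x) (fun x τ =>
    fsum (w' q' x) (fun τ' =>
      φ i q x τ * U q q' x τ τ' * ψ j q' ((α ^ (-n)) x) (τ' + csum α (h' q') (-n) x)))
  · exact hin
  · refine ⟨Rφ, fun x τ hτ => ?_⟩
    apply VEX_fsum0
    intro k
    rw [hRφ i q x τ hτ, zero_mul, zero_mul]

theorem VEX_fin (h1 : CSM_stmt) (hw' : LSys α w' h')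
    (hφ : Fam α w h φ) (hψ : Fam α w' h' ψ) (hU : Kern α w h w' h' U) (i : Fin K) (j : Fin K')
    (q : Q) (q' : Q') : ∃ M : ℤ, ∀ n : ℤ, M < |n| → ∀ x, fsum (w q x) (fun τ =>
      fsum (w' q' x) (fun τ' => φ i q x τ * U q q' x τ τ' * ψ j q' ((α ^ (-n)) x)
        (τ' + csum α (h' q') (-n) x))) = 0 := by
  obtain ⟨Rφ, hRφ⟩ := hφ.supp
  obtain ⟨Rψ, hRψ⟩ := hψ.supp
  obtain ⟨R', hR'⟩ := hU.loc Rφ
  obtain ⟨δ, hδ0, hδ⟩ := VEX_low (h' q').continuous (hw' q').2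
  refine ⟨⌈(Rψ + R') / δ⌉, fun n hn x => ?_⟩
  have hn' : (Rψ + R') / δ < |(n : ℝ)| := by
    have h3 : (⌈(Rψ + R') / δ⌉ : ℝ) < ((|n| : ℤ) : ℝ) := by exact_mod_cast hn
    rw [Int.cast_abs] at h3
    exact (Int.le_ceil _).trans_lt h3
  rw [div_lt_iff₀ hδ0] at hn'
  have hS : |(n : ℝ)| * δ ≤ |csum α (h' q') (-n) x| := by
    have h3 := (h1 X α (h' q')).2.2.2.2.1 δ hδ (-n) x
    rcases le_total 0 n with h0 | h0
    · have h4 := h3.2 (by omega)
      push_cast at h4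
      have h5 : (0 : ℝ) ≤ n := by exact_mod_cast h0
      rw [abs_of_nonneg h5]
      have h6 := neg_abs_le (csum α (h' q') (-n) x)
      linarith
    · have h4 := h3.1 (by omega)
      push_cast at h4
      have h5 : (n : ℝ) ≤ 0 := by exact_mod_cast h0
      rw [abs_of_nonpos h5]
      have h6 := le_abs_self (csum α (h' q') (-n) x)
      linarith
  apply VEX_fsum0
  intro k
  apply VEX_fsum0
  intro k'
  obtain ⟨τ, hτ⟩ : ∃ τ : ℝ, τ = Complex.arg (w q x) / (2 * Real.pi) + k := ⟨_, rfl⟩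
  obtain ⟨τ', hτ'⟩ : ∃ τ' : ℝ, τ' = Complex.arg (w' q' x) / (2 * Real.pi) + k' := ⟨_, rfl⟩
  rw [← hτ, ← hτ']
  by_cases a1 : Rφ < |τ|
  · rw [hRφ i q x τ a1, zero_mul, zero_mul]
  by_cases a2 : R' < |τ'|
  · rw [(hR' q q' x τ τ').1 (not_lt.1 a1) a2, mul_zero, zero_mul]
  have a3 : Rψ < |τ' + csum α (h' q') (-n) x| := by
    have h6 := abs_sub (τ' + csum α (h' q') (-n) x) τ'
    rw [add_sub_cancel_left] at h6
    have := not_lt.1 a2
    linarith
  rw [hRψ _ _ _ _ a3, mul_zero]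

end terms

theorem VEX (h1 : CSM_stmt) (h2 : PE1_stmt) : VEX_stmt := by
  intro X _ _ α A _ ι u Q Q' _ _ w h w' h' U K K' φ ψ hw hw' hφ hψ hU
  have hcont : ∀ i j n, Continuous (fun x => vcoef α w w' h' φ U ψ i j n x) := by
    intro i j n
    unfold vcoef
    apply continuous_finset_sum
    intro q _
    apply continuous_finset_sum
    intro q' _
    exact VEX_cont h1 h2 hw hw' hφ hψ hU i j n q q'
  have hfin : ∀ i j, ∃ M : ℤ, ∀ n : ℤ, M < |n| → ∀ x, vcoef α w w' h' φ U ψ i j n x = 0 := by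
    intro i j
    have h3 : ∀ q q', ∃ M : ℤ, ∀ n : ℤ, M < |n| → ∀ x, fsum (w q x) (fun τ =>
      fsum (w' q' x) (fun τ' => φ i q x τ * U q q' x τ τ' * ψ j q' ((α ^ (-n)) x)
        (τ' + csum α (h' q') (-n) x))) = 0 := fun q q' => VEX_fin h1 hw' hφ hψ hU i j q q'
    choose M hM using h3
    refine ⟨∑ q, ∑ q', |M q q'|, fun n hn x => ?_⟩
    unfold vcoef
    apply Finset.sum_eq_zero
    intro q _
    apply Finset.sum_eq_zero
    intro q' _
    apply hM q q' n _ x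
    have h4 : |M q q'| ≤ ∑ q', |M q q'| :=
      Finset.single_le_sum (f := fun q' => |M q q'|) (fun _ _ => abs_nonneg _) (Finset.mem_univ q')
    have h5 : ∑ q', |M q q'| ≤ ∑ q, ∑ q', |M q q'| :=
      Finset.single_le_sum (f := fun q => ∑ q', |M q q'|)
        (fun _ _ => Finset.sum_nonneg fun _ _ => abs_nonneg _) (Finset.mem_univ q)
    have h6 := le_abs_self (M q q')
    omega
  obtain ⟨F, hF⟩ : ∃ F : Fin K → Fin K' → ℤ → C(X, ℂ), ∀ i j n x,
      F i j n x = vcoef α w w' h' φ U ψ i j n x :=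
    ⟨fun i j n => ⟨fun x => vcoef α w w' h' φ U ψ i j n x, hcont i j n⟩, fun _ _ _ _ => rfl⟩
  refine ⟨fun i j => ∑ᶠ n : ℤ, ι (F i j n) * up u n, ?_⟩
  intro i j
  refine ⟨F i j, ⟨?_, rfl⟩, hF i j⟩
  obtain ⟨M, hM⟩ := hfin i j
  apply (Set.finite_Icc (-M) M).subset
  intro n hn
  rw [Function.mem_support] at hn
  by_contra h0
  apply hn
  ext x
  rw [hF i j n x, ContinuousMap.zero_apply]
  apply hM n _ x
  by_contra h1
  apply h0
  rw [Set.mem_Icc]
  have := abs_le.1 (not_lt.1 h1)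
  exact this

end Pool.Agent.CZ
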